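import Mathlib
import Pool.Agent.H.MP_078bdc_al.D

namespace Pool.Agent.Results.MP_078bdc_al.Fig

open Filter

/-- Gromov product of `x`, `y` at `w`. -/
noncomputable def gprod {X : Type} [MetricSpace X] (w x y : X) : ℝ :=
  (dist w x + dist w y - dist x y) / 2

/-- Any two points are joined by an isometrically parametrised segment. -/
def Geodesic (X : Type) [MetricSpace X] : Prop :=
  ∀ x y : X, ∃ γ : ℝ → X, γ 0 = x ∧ γ (dist x y) = y ∧
    ∀ a ∈ Set.Icc 0 (dist x y), ∀ b ∈ Set.Icc 0 (dist x y), dist (γ a) (γ b) = |a - b|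

/-- Gromov's four point condition. -/
def Hyperbolic (X : Type) [MetricSpace X] : Prop :=
  ∃ δ : ℝ, 0 ≤ δ ∧ ∀ w x y z : X, min (gprod w x y) (gprod w y z) - δ ≤ gprod w x z

/-- The orbit map `n ↦ gⁿ o` escapes linearly. -/
def Loxodromic {X : Type} [MetricSpace X] (o : X) (g : X ≃ᵢ X) : Prop :=
  ∃ c : ℝ, 0 < c ∧ ∀ n : ℤ, c * |(n : ℝ)| ≤ dist o ((g ^ n) o)

/-- `y` converges at infinity, so represents a point of the Gromov boundary. -/
def AtInfinity {X : Type} [MetricSpace X] (o : X) (y : ℕ → X) : Prop :=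
  Tendsto (fun p : ℕ × ℕ => gprod o (y p.1) (y p.2)) atTop atTop

/-- `g` fixes the boundary point represented by `y`. -/
def FixesEnd {X : Type} [MetricSpace X] (o : X) (g : X ≃ᵢ X) (y : ℕ → X) : Prop :=
  Tendsto (fun n : ℕ => gprod o (y n) (g (y n))) atTop atTop

theorem result :
    ∃ (G : Type) (_ : Group G) (S : Finset G),
      (∀ c : G → G, Subgroup.closure ((fun s => c s * s * (c s)⁻¹) '' (S : Set G)) = ⊤) ∧
      ∃ (X : Type) (_ : MetricSpace X) (ρ : G →* (X ≃ᵢ X)), Geodesic X ∧ Hyperbolic X ∧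
        ∃ (o : X) (g h : G), Loxodromic o (ρ g) ∧ Loxodromic o (ρ h) ∧
          ∀ y : ℕ → X, AtInfinity o y → ¬ (FixesEnd o (ρ g) y ∧ FixesEnd o (ρ h) y) := by
  open Pool.Agent.H.MP_078bdc_al in
  obtain ⟨S, hS⟩ := fig
  open Pool.Agent.H.MP_078bdc_al in
  refine ⟨G, inferInstance, S, hS, X, inferInstance, act, geo, ⟨6, by norm_num, hyp⟩,
    vx none, g1, g2, ⟨1, one_pos, lox1⟩, ⟨1, one_pos, lox2⟩, ?_⟩
  rintro y - ⟨h1, h2⟩
  obtain ⟨n, a, b⟩ := ((h1.eventually_gt_atTop 3).and (h2.eventually_gt_atTop 3)).exists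
  rcases Pool.Agent.H.MP_078bdc_al.nofix (y n) with c | c
  · exact absurd a (not_lt.2 c)
  · exact absurd b (not_lt.2 c)

end Pool.Agent.Results.MP_078bdc_al.Fig
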